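import Mathlib

namespace Pool.Agent.H.MP_7d5718_an

open Filter Topology Set

/-- lower density -/
noncomputable def lowerDens (A : Set ℕ) : ℝ :=
  liminf (fun N : ℕ => ((A ∩ Set.Iic N).ncard : ℝ) / ((N : ℝ) + 1)) atTop

lemma lowerDens_pos {A B : Set ℕ} (hAB : A ⊆ B) {c : ℝ} (hc : 0 < c)
    (h : ∀ᶠ N : ℕ in atTop, c * ((N : ℝ) + 1) ≤ ((A ∩ Set.Iic N).ncard : ℝ)) :
    0 < lowerDens B := by
  refine hc.trans_le (le_liminf_of_le ?_ ?_)
  · refine IsBoundedUnder.isCoboundedUnder_ge ⟨1, ?_⟩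
    simp only [eventually_map]
    refine Eventually.of_forall fun N => ?_
    rw [div_le_one (by positivity)]
    have : (B ∩ Set.Iic N).ncard ≤ (Set.Iic N).ncard :=
      Set.ncard_le_ncard inter_subset_right (Set.finite_Iic N)
    rw [Set.ncard_Iic_nat] at this
    exact_mod_cast this
  · filter_upwards [h] with N hN
    rw [le_div_iff₀ (by positivity)]
    refine hN.trans ?_
    exact_mod_cast Set.ncard_le_ncard (inter_subset_inter_left _ hAB)
      ((Set.finite_Iic N).subset inter_subset_right)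

def blk (l t : ℕ) : ℕ := 2 ^ l * (2 * t + 1)

lemma blk_inj {l t l' t' : ℕ} (h : blk l t = blk l' t') : l = l' := by
  unfold blk at h
  have key : ∀ l t l' t' : ℕ, 2 ^ l * (2 * t + 1) = 2 ^ l' * (2 * t' + 1) → ¬ l < l' := by
    intro l t l' t' h hl
    obtain ⟨d, rfl⟩ := Nat.exists_eq_add_of_lt hl
    rw [add_assoc, pow_add, mul_assoc] at h
    have := Nat.eq_of_mul_eq_mul_left (by positivity) h
    rw [pow_succ', mul_assoc] at this
    omega
  have := key _ _ _ _ h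
  have := key _ _ _ _ h.symm
  omega

def AA (N : ℕ → ℕ) (l : ℕ) : Set ℕ :=
  {m | ∃ t q, 1 ≤ q ∧ N l * (q + 1) ≤ 2 ^ blk l t ∧ m = 2 ^ blk l t + N l * q}

lemma AA_ge {N : ℕ → ℕ} {l m : ℕ} (h : m ∈ AA N l) : N l ≤ m := by
  obtain ⟨t, q, h1, -, rfl⟩ := h
  have : N l * 1 ≤ N l * q := Nat.mul_le_mul_left _ h1
  rw [mul_one] at this
  exact this.trans (Nat.le_add_left _ _)

lemma AA_sep {N : ℕ → ℕ} {l l' m m' : ℕ} (h : m ∈ AA N l) (h' : m' ∈ AA N l') (hm : m < m') :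
    m + N l ≤ m' ∧ m + N l' ≤ m' := by
  obtain ⟨t, q, h1, h2, rfl⟩ := h
  obtain ⟨t', q', h1', h2', rfl⟩ := h'
  have e1 : N l * 1 ≤ N l * q := Nat.mul_le_mul_left _ h1
  have e1' : N l' * 1 ≤ N l' * q' := Nat.mul_le_mul_left _ h1'
  rw [mul_add] at h2 h2'
  rcases lt_trichotomy (blk l t) (blk l' t') with hb | hb | hb
  · have : 2 ^ (blk l t + 1) ≤ 2 ^ blk l' t' := Nat.pow_le_pow_right (by norm_num) hb
    rw [pow_succ] at this
    omega
  · obtain rfl := blk_inj hb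
    rw [hb] at hm ⊢
    have hq : q < q' := by
      by_contra hq
      have : N l * q' ≤ N l * q := Nat.mul_le_mul_left _ (by omega)
      omega
    have : N l * (q + 1) ≤ N l * q' := Nat.mul_le_mul_left _ hq
    rw [mul_add] at this
    omega
  · have : 2 ^ (blk l' t' + 1) ≤ 2 ^ blk l t := Nat.pow_le_pow_right (by norm_num) hb
    rw [pow_succ] at this
    omega

lemma AA_uniq {N : ℕ → ℕ} (hN : ∀ l, 1 ≤ N l) {l l' m : ℕ} (h : m ∈ AA N l) (h' : m ∈ AA N l') :
    l = l' := by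
  obtain ⟨t, q, h1, h2, e⟩ := h
  obtain ⟨t', q', h1', h2', e'⟩ := h'
  have := hN l
  have := hN l'
  rw [mul_add] at h2 h2'
  rcases lt_trichotomy (blk l t) (blk l' t') with hb | hb | hb
  · have : 2 ^ (blk l t + 1) ≤ 2 ^ blk l' t' := Nat.pow_le_pow_right (by norm_num) hb
    rw [pow_succ] at this
    omega
  · exact blk_inj hb
  · have : 2 ^ (blk l' t' + 1) ≤ 2 ^ blk l t := Nat.pow_le_pow_right (by norm_num) hb
    rw [pow_succ] at this
    omega

lemma AA_dens {N : ℕ → ℕ} (hN : ∀ l, 1 ≤ N l) (l : ℕ) :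
    ∃ c : ℝ, 0 < c ∧ ∀ᶠ n : ℕ in atTop, c * ((n : ℝ) + 1) ≤ ((AA N l ∩ Set.Iic n).ncard : ℝ) := by
  have hNl := hN l
  refine ⟨1 / (2 * N l * 2 ^ (2 ^ (l + 1) + 1)), by positivity, ?_⟩
  have hex : ∀ n : ℕ, ∃ t, n < 2 ^ (blk l t + 1) := fun n => ⟨n, by
    refine (Nat.lt_two_pow_self).trans_le (Nat.pow_le_pow_right (by norm_num) ?_)
    unfold blk
    have : 1 * (2 * n + 1) ≤ 2 ^ l * (2 * n + 1) := Nat.mul_le_mul_right _ Nat.one_le_two_pow
    omega⟩
  filter_upwards [eventually_ge_atTop (2 ^ (blk l (4 * N l) + 1))] with n hn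
  classical
  have h0 := Nat.find_spec (hex n)
  set s := Nat.find (hex n) with hs
  have mono : ∀ a b, a ≤ b → blk l a ≤ blk l b := fun a b h =>
    Nat.mul_le_mul_left _ (by omega)
  have hs1 : 4 * N l < s := by
    by_contra hc
    have := Nat.pow_le_pow_right (n := 2) (by norm_num)
      (Nat.add_le_add_right (mono s (4 * N l) (by omega)) 1)
    omega
  obtain ⟨t, ht⟩ : ∃ t, s = t + 1 := ⟨s - 1, by omega⟩
  have h1 : ¬ n < 2 ^ (blk l t + 1) := Nat.find_min (hex n) (by omega)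
  have hb : blk l s = blk l t + 2 ^ (l + 1) := by rw [ht]; unfold blk; ring
  set P := 2 ^ blk l t with hP
  have hP4 : 4 * N l ≤ P := by
    refine le_trans ?_ (Nat.lt_two_pow_self (n := blk l t)).le
    unfold blk
    have : 1 * (2 * t + 1) ≤ 2 ^ l * (2 * t + 1) := Nat.mul_le_mul_right _ Nat.one_le_two_pow
    omega
  have hsub : (fun q => P + N l * q) '' (Set.Ico 1 (P / N l)) ⊆ AA N l ∩ Set.Iic n := by
    rintro _ ⟨q, ⟨hq1, hq2⟩, rfl⟩
    have : N l * (q + 1) ≤ P := by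
      refine (Nat.mul_le_mul_left _ hq2).trans (Nat.mul_div_le _ _)
    refine ⟨⟨t, q, hq1, this, rfl⟩, ?_⟩
    rw [pow_succ] at h1
    rw [mul_add] at this
    simp only [mem_Iic]
    omega
  have hc := Set.ncard_le_ncard hsub ((Set.finite_Iic n).subset inter_subset_right)
  rw [Set.ncard_image_of_injective _ (fun a b h => by
    have : N l * a = N l * b := by simpa using h
    exact Nat.eq_of_mul_eq_mul_left hNl this), Set.ncard_Ico_nat] at hc
  have e1 : n + 1 ≤ P * 2 ^ (2 ^ (l + 1) + 1) := by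
    rw [hP, ← pow_add, ← add_assoc, ← hb]; omega
  have e2 : P ≤ 2 * N l * (P / N l - 1) := by
    have a1 := Nat.div_add_mod P (N l)
    have a2 := Nat.mod_lt P hNl
    have a3 : 4 ≤ P / N l := (Nat.le_div_iff_mul_le hNl).2 hP4
    obtain ⟨u, hu⟩ : ∃ u, P / N l = u + 1 := ⟨P / N l - 1, by omega⟩
    rw [hu] at a1 a3 ⊢
    simp only [Nat.add_sub_cancel]
    have : N l * 3 ≤ N l * u := Nat.mul_le_mul_left _ (by omega)
    nlinarith
  have e1' : (n : ℝ) + 1 ≤ P * 2 ^ (2 ^ (l + 1) + 1) := by exact_mod_cast e1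
  have e2' : (P : ℝ) ≤ 2 * N l * ((AA N l ∩ Set.Iic n).ncard : ℝ) := by
    exact_mod_cast e2.trans (Nat.mul_le_mul_left _ hc)
  rw [div_mul_eq_mul_div, one_mul, div_le_iff₀ (by positivity)]
  calc _ ≤ (P : ℝ) * 2 ^ (2 ^ (l + 1) + 1) := e1'
    _ ≤ (2 * N l * ((AA N l ∩ Set.Iic n).ncard : ℝ)) * 2 ^ (2 ^ (l + 1) + 1) := by gcongr
    _ = _ := by ring

variable {𝕜 E : Type*} [RCLike 𝕜] [NormedAddCommGroup E] [NormedSpace 𝕜 E]

def Good (T : E →L[𝕜] E) (v : E) : Prop :=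
  ∀ ε : ℝ, 0 < ε → ∃ K : ℝ, ∀ M : ℕ, ∃ z, ‖(T ^ M) z - v‖ ≤ ε ∧
    ∀ n : ℕ, ‖(T ^ n) z‖ ≤ K * (1 / 8) ^ ((n : ℤ) - M).natAbs

lemma summ : Summable fun k : ℤ => (1 / 2 : ℝ) ^ k.natAbs := by
  refine Summable.of_nat_of_neg ?_ ?_
  · simpa using summable_geometric_two
  · simpa using summable_geometric_two

theorem fhc [CompleteSpace E] [TopologicalSpace.SeparableSpace E] (T : E →L[𝕜] E)
    (hT : ∀ v, Good T v) :
    ∃ x, ∀ U : Set E, IsOpen U → U.Nonempty → 0 < lowerDens {n | (T ^ n) x ∈ U} := by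
  classical
  haveI : Nonempty E := ⟨0⟩
  set d := TopologicalSpace.denseSeq E
  set v : ℕ → E := fun l => d (Nat.unpair l).1
  choose K hK using fun l : ℕ => hT (v l) ((1 / 2) ^ l) (by positivity)
  choose z hz1 hz2 using hK
  have hN : ∀ l : ℕ, ∃ N : ℕ, 1 ≤ N ∧ l ≤ N ∧ K l ≤ 2 ^ N := fun l => by
    obtain ⟨N, hN⟩ := pow_unbounded_of_one_lt (K l) (one_lt_two (α := ℝ))
    exact ⟨N + l + 1, by omega, by omega,
      hN.le.trans (pow_le_pow_right₀ (by norm_num) (by omega))⟩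
  choose N hN1 hN2 hN3 using hN
  set w : ℕ → E := fun m => if h : ∃ l, m ∈ AA N l then z h.choose m else 0 with hw
  have hwA : ∀ l m, m ∈ AA N l → w m = z l m := fun l m h => by
    have h' : ∃ l, m ∈ AA N l := ⟨l, h⟩
    simp only [hw, dif_pos h']
    rw [AA_uniq hN1 h'.choose_spec h]
  have bd : ∀ (l a k : ℕ), N l ≤ k → a ≤ k → K l * (1 / 8) ^ k ≤ (1 / 2) ^ a * (1 / 2) ^ k := by
    intro l a k h1 h2
    have e : (1 / 8 : ℝ) ^ k = (1 / 2) ^ k * ((1 / 2) ^ k * (1 / 2) ^ k) := by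
      rw [← mul_pow, ← mul_pow]; norm_num
    have a1 : K l * (1 / 2) ^ k ≤ 1 := by
      calc K l * (1 / 2) ^ k ≤ 2 ^ k * (1 / 2) ^ k := by
            gcongr; exact (hN3 l).trans (pow_le_pow_right₀ (by norm_num) h1)
        _ = 1 := by rw [← mul_pow]; norm_num
    have a2 : (1 / 2 : ℝ) ^ k ≤ (1 / 2) ^ a := pow_le_pow_of_le_one (by norm_num) (by norm_num) h2
    rw [e, ← mul_assoc]
    calc _ ≤ 1 * ((1 / 2 : ℝ) ^ k * (1 / 2) ^ k) := by gcongr
      _ ≤ _ := by rw [one_mul]; gcongr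
  have hws : Summable w := by
    refine Summable.of_norm_bounded summable_geometric_two fun m => ?_
    by_cases h : ∃ l, m ∈ AA N l
    · obtain ⟨l, h⟩ := h
      rw [hwA l m h]
      have := hz2 l m 0
      simp only [pow_zero, one_apply_eq_self, Nat.cast_zero, zero_sub,
        Int.natAbs_neg, Int.natAbs_natCast] at this
      simpa using this.trans (bd l 0 m (AA_ge h) (Nat.zero_le _))
    · simp only [hw, dif_neg h, norm_zero]; positivity
  set C := ∑' k : ℤ, (1 / 2 : ℝ) ^ k.natAbs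
  have key : ∀ l m, m ∈ AA N l → ‖(T ^ m) (∑' i, w i) - v l‖ ≤ (1 / 2) ^ l * (1 + C) := by
    intro l m hm
    rw [(T ^ m).map_tsum hws, ((T ^ m).summable hws).tsum_eq_add_tsum_ite m, hwA l m hm,
      add_sub_right_comm, mul_add, mul_one]
    refine (norm_add_le _ _).trans (add_le_add (hz1 l m) ?_)
    have inj : Function.Injective fun i : ℕ => (m : ℤ) - i := fun a b h => by
      simpa using h
    have s1 : Summable fun i : ℕ => (1 / 2 : ℝ) ^ ((m : ℤ) - i).natAbs := summ.comp_injective inj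
    have s2 : ∑' i : ℕ, (1 / 2 : ℝ) ^ ((m : ℤ) - i).natAbs ≤ C :=
      Summable.tsum_le_tsum_of_inj _ inj (fun _ _ => by positivity) (fun _ => le_rfl) s1 summ
    refine (tsum_of_norm_bounded (s1.mul_left ((1 / 2) ^ l)).hasSum fun i => ?_).trans ?_
    · split_ifs with hi
      · simp only [norm_zero]; positivity
      · by_cases h : ∃ l, i ∈ AA N l
        · obtain ⟨l', h⟩ := h
          rw [hwA l' i h]
          refine (hz2 l' i m).trans (bd l' l _ ?_ ?_)
          · rcases lt_or_gt_of_ne hi with c | c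
            · have := AA_sep h hm c; omega
            · have := AA_sep hm h c; omega
          · have := hN2 l
            rcases lt_or_gt_of_ne hi with c | c
            · have := AA_sep h hm c; omega
            · have := AA_sep hm h c; omega
        · simp only [hw, dif_neg h, map_zero, norm_zero]; positivity
    · rw [tsum_mul_left]; gcongr
  refine ⟨∑' i, w i, fun U hU ⟨u, hu⟩ => ?_⟩
  obtain ⟨ε, hε, hb⟩ := Metric.isOpen_iff.1 hU u hu
  obtain ⟨j, hj⟩ := Metric.denseRange_iff.1 (TopologicalSpace.denseRange_denseSeq E) u (ε / 2)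
    (by positivity)
  have ht : Tendsto (fun l : ℕ => (1 / 2 : ℝ) ^ l * (1 + C)) atTop (𝓝 (0 * (1 + C))) :=
    (tendsto_pow_atTop_nhds_zero_of_lt_one (by norm_num) (by norm_num)).mul_const _
  rw [zero_mul] at ht
  obtain ⟨L, hL⟩ := eventually_atTop.1 (ht.eventually (gt_mem_nhds (half_pos hε)))
  obtain ⟨c, hc, hd⟩ := AA_dens hN1 (Nat.pair j L)
  refine lowerDens_pos (fun m hm => hb ?_) hc hd
  have a1 := key _ _ hm
  have a2 := hL _ (Nat.right_le_pair j L)
  have a3 : v (Nat.pair j L) = d j := by simp [v]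
  rw [a3, ← dist_eq_norm] at a1
  rw [Metric.mem_ball]
  have := dist_triangle ((T ^ m) (∑' i, w i)) (d j) u
  rw [dist_comm] at hj
  linarith

lemma Good.add {T : E →L[𝕜] E} {u v : E} (hu : Good T u) (hv : Good T v) : Good T (u + v) := by
  intro ε hε
  obtain ⟨K, hK⟩ := hu (ε / 2) (by positivity)
  obtain ⟨L, hL⟩ := hv (ε / 2) (by positivity)
  refine ⟨K + L, fun M => ?_⟩
  obtain ⟨z, h1, h2⟩ := hK M
  obtain ⟨y, g1, g2⟩ := hL M
  refine ⟨z + y, ?_, fun n => ?_⟩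
  · rw [map_add, add_sub_add_comm]
    exact (norm_add_le _ _).trans (by linarith)
  · rw [map_add, add_mul]
    exact (norm_add_le _ _).trans (add_le_add (h2 n) (g2 n))

lemma Good.zero {T : E →L[𝕜] E} : Good T 0 := fun ε hε =>
  ⟨0, fun M => ⟨0, by simpa using hε.le, fun n => by simp⟩⟩

lemma Good.lim {T : E →L[𝕜] E} {v : E} (h : ∀ ε : ℝ, 0 < ε → ∃ u, Good T u ∧ ‖u - v‖ ≤ ε) :
    Good T v := by
  intro ε hε
  obtain ⟨u, hu, h1⟩ := h (ε / 2) (by positivity)
  obtain ⟨K, hK⟩ := hu (ε / 2) (by positivity)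
  refine ⟨K, fun M => ?_⟩
  obtain ⟨z, h2, h3⟩ := hK M
  refine ⟨z, ?_, h3⟩
  have := norm_sub_le_norm_sub_add_norm_sub ((T ^ M) z) u v
  linarith

end Pool.Agent.H.MP_7d5718_an
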