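import Pool.Agent.H.MP_7d5718_an.A

namespace Pool.Agent.H.MP_7d5718_an

open Filter Topology Set
open scoped ENNReal

lemma lp_sep {ι X : Type*} [Countable ι] [NormedAddCommGroup X]
    [TopologicalSpace.SeparableSpace X] (p : ℝ≥0∞) [Fact (1 ≤ p)] (hp : p ≠ ⊤) :
    TopologicalSpace.SeparableSpace (lp (fun _ : ι => X) p) := by
  classical
  rw [← TopologicalSpace.isSeparable_univ_iff]
  have h : TopologicalSpace.IsSeparable (⋃ s : Finset ι, range
      fun g : ι → X => ∑ i ∈ s, (lp.single p i (g i) : lp (fun _ : ι => X) p)) := by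
    refine TopologicalSpace.IsSeparable.iUnion fun s => TopologicalSpace.isSeparable_range ?_
    refine continuous_finsetSum _ fun i _ => ?_
    exact (lp.isometry_single (E := fun _ : ι => X) i).continuous.comp (continuous_apply i)
  refine h.closure.mono fun f _ => ?_
  refine mem_closure_of_tendsto (lp.hasSum_single hp f) (Eventually.of_forall fun s => ?_)
  exact mem_iUnion.2 ⟨s, f, rfl⟩

variable {𝕜 X : Type*} [RCLike 𝕜] [NormedAddCommGroup X] [NormedSpace 𝕜 X]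

lemma exists_shift (p : ℝ≥0∞) [Fact (1 ≤ p)] (hp : p ≠ ⊤) (S : ℤ → X →L[𝕜] X) {C : ℝ}
    (hC : ∀ n, ‖S n‖ ≤ C) : ∃ σ : lp (fun _ : ℤ => X) p →L[𝕜] lp (fun _ : ℤ => X) p,
      ∀ x n, σ x n = S (n + 1) (x (n + 1)) := by
  have hp1 : (1 : ℝ≥0∞) ≤ p := Fact.out
  have hp0 : 0 < p.toReal := ENNReal.toReal_pos (zero_lt_one.trans_le hp1).ne' hp
  let B : lp (fun _ : ℤ => X) p →L[𝕜] lp (fun _ : ℤ => X) p :=
    LinearMap.mkContinuous
      { toFun x := ⟨fun n => x (n + 1), memℓp_gen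
          ((Equiv.addRight (1 : ℤ)).summable_iff.2 ((memℓp_gen_iff hp0).1 (lp.memℓp x)))⟩
        map_add' _ _ := by ext; simp
        map_smul' _ _ := by ext; simp } 1 fun x => by
      rw [one_mul, lp.norm_eq_tsum_rpow hp0, lp.norm_eq_tsum_rpow hp0 x,
        ← (Equiv.addRight (1 : ℤ)).tsum_eq fun n => ‖x n‖ ^ p.toReal]
      exact le_rfl
  exact ⟨B ∘L lp.mapCLM p S ((norm_nonneg _).trans (hC 0)) hC, fun x n => rfl⟩

section
variable {p : ℝ≥0∞} [Fact (1 ≤ p)] (Φ : ℤ → X ≃L[𝕜] X)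
  (σ : lp (fun _ : ℤ => X) p →L[𝕜] lp (fun _ : ℤ => X) p)
  (hσ : ∀ x n, σ x n = Φ n ((Φ (n + 1)).symm (x (n + 1))))
include hσ

lemma pow_apply (k : ℕ) : ∀ x n, (σ ^ k) x n = Φ n ((Φ (n + k)).symm (x (n + k))) := by
  induction k with
  | zero => intro x n; simp
  | succ k ih =>
    intro x n
    rw [pow_succ', mul_apply_eq_comp, hσ, ih, ContinuousLinearEquiv.symm_apply_apply]
    have : n + 1 + (k : ℤ) = n + ((k + 1 : ℕ) : ℤ) := by push_cast; ring
    rw [this]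

lemma pow_single (k : ℕ) (m : ℤ) (a : X) :
    (σ ^ k) (lp.single p m (Φ m a)) = lp.single p (m - k) (Φ (m - k) a) := by
  ext n
  rw [pow_apply Φ σ hσ]
  by_cases h : n = m - k
  · subst h
    have : m - k + k = m := by ring
    rw [this, lp.single_apply_self, lp.single_apply_self,
      ContinuousLinearEquiv.symm_apply_apply]
  · rw [lp.single_apply_ne _ _ _ h, lp.single_apply_ne _ _ _ (fun e => h (by rw [← e]; ring))]
    simp

lemma good_all (hp : p ≠ ⊤)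
    (hB : ∀ (a : X) (ε : ℝ), 0 < ε → ∃ K : ℝ, ∀ M : ℤ, ∃ u, ‖u - a‖ ≤ ε ∧
      ∀ m ≤ M, ‖Φ m u‖ ≤ K * (1 / 8) ^ m.natAbs) (v : lp (fun _ : ℤ => X) p) : Good σ v := by
  have hp0 : 0 < p := zero_lt_one.trans_le Fact.out
  have h1 : ∀ (i : ℤ) (b : X), Good σ (lp.single p i b) := by
    intro i b ε hε
    set L := ‖(Φ i : X →L[𝕜] X)‖ + 1
    have hL : 0 < L := by positivity
    obtain ⟨K, hK⟩ := hB ((Φ i).symm b) (ε / L) (by positivity)
    refine ⟨|K| * 8 ^ i.natAbs, fun M => ?_⟩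
    obtain ⟨u, h1, h2⟩ := hK (i + M)
    refine ⟨lp.single p (i + M) (Φ (i + M) u), ?_, fun n => ?_⟩
    · rw [pow_single Φ σ hσ, add_sub_cancel_right, ← lp.single_sub, lp.norm_single hp0]
      have : Φ i u - b = (Φ i : X →L[𝕜] X) (u - (Φ i).symm b) := by simp
      rw [this]
      refine (ContinuousLinearMap.le_opNorm _ _).trans ?_
      calc _ ≤ L * (ε / L) := by gcongr; simp [L]
        _ = ε := by field_simp
    · rw [pow_single Φ σ hσ, lp.norm_single hp0]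
      refine (h2 _ (by omega)).trans ?_
      have e : (1 / 8 : ℝ) ^ (i + M - n).natAbs ≤
          8 ^ i.natAbs * (1 / 8) ^ ((n : ℤ) - M).natAbs := by
        have : (1 / 8 : ℝ) ^ ((i + M - n).natAbs + i.natAbs) ≤ (1 / 8) ^ ((n : ℤ) - M).natAbs :=
          pow_le_pow_of_le_one (by norm_num) (by norm_num) (by omega)
        calc _ = 8 ^ i.natAbs * (1 / 8 : ℝ) ^ ((i + M - n).natAbs + i.natAbs) := by
              rw [pow_add, mul_comm _ ((1 / 8 : ℝ) ^ i.natAbs), ← mul_assoc, ← mul_pow]; norm_num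
          _ ≤ _ := by gcongr
      rw [mul_assoc]
      exact mul_le_mul (le_abs_self K) e (by positivity) (abs_nonneg K)
  have h2 : ∀ s : Finset ℤ, Good σ (∑ i ∈ s, lp.single p i (v i)) := fun s => by
    induction s using Finset.induction_on with
    | empty => simpa using Good.zero
    | insert a s ha ih => rw [Finset.sum_insert ha]; exact (h1 _ _).add ih
  refine Good.lim fun ε hε => ?_
  obtain ⟨s, hs⟩ := (Metric.tendsto_nhds.1 (lp.hasSum_single hp v) ε hε).exists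
  exact ⟨_, h2 s, by rw [← dist_eq_norm]; exact hs.le⟩

lemma not_dense (f : X →L[𝕜] 𝕜) (a₀ : X) (hf : f a₀ ≠ 0)
    (hA : ∀ (a : X) (C : ℝ), (∀ n : ℕ, ‖Φ n a‖ ≤ C) → f a = 0) :
    ¬ Dense {x | ∃ k : ℕ, 1 ≤ k ∧ (σ ^ k) x = x} := by
  intro hd
  have hp0 : p ≠ 0 := (zero_lt_one.trans_le (Fact.out : 1 ≤ p)).ne'
  set g : lp (fun _ : ℤ => X) p →L[𝕜] 𝕜 :=
    f ∘L ((Φ 0).symm : X →L[𝕜] X) ∘L lp.evalCLM 𝕜 (fun _ : ℤ => X) p 0
  have hg : ∀ x, g x = f ((Φ 0).symm (x 0)) := fun x => rfl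
  have h0 : ∀ x ∈ {x | ∃ k : ℕ, 1 ≤ k ∧ (σ ^ k) x = x}, g x = 0 := by
    rintro x ⟨k, hk, hx⟩
    rw [hg]
    refine hA _ (∑ m ∈ Finset.range (k + 1), ‖(σ ^ m) x‖) fun n => ?_
    have hq : ∀ q : ℕ, (σ ^ (k * q)) x = x := fun q => by
      induction q with
      | zero => simp
      | succ q ih => rw [mul_add, mul_one, pow_add, mul_apply_eq_comp, hx, ih]
    have e : n + (k - n % k) = k * (n / k + 1) := by
      have := Nat.div_add_mod n k
      have := Nat.mod_lt n hk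
      rw [mul_add]
      omega
    have e2 : (σ ^ n) ((σ ^ (k - n % k)) x) = x := by
      rw [← mul_apply_eq_comp, ← pow_add, e, hq]
    have e3 := pow_apply Φ σ hσ n ((σ ^ (k - n % k)) x) 0
    rw [e2, zero_add] at e3
    rw [e3, ContinuousLinearEquiv.symm_apply_apply, ContinuousLinearEquiv.apply_symm_apply]
    refine (lp.norm_apply_le_norm hp0 _ _).trans ?_
    exact Finset.single_le_sum (f := fun m => ‖(σ ^ m) x‖) (fun _ _ => norm_nonneg _)
      (Finset.mem_range.2 (by omega))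
  have := hd.induction (P := fun x => g x = 0) h0
    (isClosed_eq g.continuous continuous_const) (lp.single p 0 (Φ 0 a₀))
  rw [hg, lp.single_apply_self, ContinuousLinearEquiv.symm_apply_apply] at this
  exact hf this

end

/-- dilation along a projection -/
noncomputable def RR (Q : X →L[𝕜] X) (c : ℝ) : X →L[𝕜] X := 1 + ((c - 1 : ℝ) : 𝕜) • Q

lemma RR_apply (Q : X →L[𝕜] X) (c : ℝ) (x : X) : RR Q c x = x + ((c - 1 : ℝ) : 𝕜) • Q x := rfl

lemma RR_RR {Q : X →L[𝕜] X} (hQ : ∀ x, Q (Q x) = Q x) (c d : ℝ) (x : X) :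
    RR Q c (RR Q d x) = RR Q (c * d) x := by
  simp only [RR_apply, map_add, map_smul, hQ]
  push_cast
  module

lemma RR_norm {Q : X →L[𝕜] X} (hQ : ∀ x, ‖Q x‖ ≤ ‖x‖) {c D : ℝ} (h0 : 0 ≤ c) (hc : c ≤ D)
    (x : X) : ‖RR Q c x‖ ≤ (D + 2) * ‖x‖ := by
  rw [RR_apply]
  refine (norm_add_le _ _).trans ?_
  rw [norm_smul, RCLike.norm_ofReal]
  have : |c - 1| ≤ D + 1 := abs_le.2 ⟨by linarith, by linarith⟩
  have := mul_le_mul this (hQ x) (norm_nonneg _) (by linarith)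
  linarith

/-- height of the tent -/
def mu (n : ℤ) : ℕ :=
  2 * min (n.toNat - 8 ^ Nat.log 8 n.toNat) (8 ^ (Nat.log 8 n.toNat + 1) - n.toNat)

def ka (n : ℤ) : ℕ := Nat.log 8 n.toNat

lemma mu_step (n : ℤ) : (ka n = ka (n + 1) ∧ mu n ≤ mu (n + 1) + 2 ∧ mu (n + 1) ≤ mu n + 2) ∨
    (mu n ≤ 2 ∧ mu (n + 1) ≤ 2) := by
  by_cases h : n ≤ 0
  · right
    unfold mu
    have : n.toNat = 0 := by omega
    have : (n + 1).toNat ≤ 1 := by omega
    omega
  · obtain ⟨k, rfl⟩ : ∃ k : ℕ, n = k := ⟨n.toNat, by omega⟩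
    have e : ((k : ℤ) + 1).toNat = k + 1 := by omega
    unfold mu ka
    rw [e, Int.toNat_natCast]
    by_cases c : Nat.log 8 k = Nat.log 8 (k + 1)
    · left
      rw [← c]
      omega
    · right
      have a1 : Nat.log 8 k + 1 ≤ Nat.log 8 (k + 1) :=
        lt_of_le_of_ne (Nat.log_mono_right (by omega)) c
      have a2 := Nat.pow_log_le_self 8 (x := k + 1) (by omega)
      have a3 := Nat.lt_pow_succ_log_self (b := 8) (by norm_num) k
      have a4 : 8 ^ (Nat.log 8 k + 1) ≤ 8 ^ Nat.log 8 (k + 1) :=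
        Nat.pow_le_pow_right (by norm_num) a1
      simp only [Nat.succ_eq_add_one] at a3
      omega

lemma mu_peak (j : ℕ) : ∃ n : ℕ, ka n = j ∧ n + j ≤ mu n := by
  have h : Nat.log 8 (3 * 8 ^ j) = j := by
    rw [Nat.log_eq_iff (by right; constructor <;> first | norm_num | positivity)]
    rw [pow_succ]
    have : 0 < 8 ^ j := by positivity
    omega
  refine ⟨3 * 8 ^ j, by unfold ka; rw [Int.toNat_natCast, h], ?_⟩
  unfold mu
  rw [Int.toNat_natCast, h, pow_succ]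
  have : j < 8 ^ j := Nat.lt_pow_self (by norm_num)
  omega

lemma mu_le (n : ℤ) : mu n ≤ 2 * 8 ^ (ka n + 1) := by
  unfold mu ka
  omega

end Pool.Agent.H.MP_7d5718_an
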