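import Pool.Agent.H.MP_7d5718_an.B

namespace Pool.Agent.H.MP_7d5718_an

open Filter Topology Set
open scoped ENNReal

section
variable {𝕜 X : Type*} [RCLike 𝕜] [NormedAddCommGroup X] [NormedSpace 𝕜 X]
  (Q : ℕ → X →L[𝕜] X) (hQ : ∀ j x, Q j (Q j x) = Q j x)

noncomputable def Ph (n : ℤ) : X ≃L[𝕜] X :=
  ContinuousLinearEquiv.equivOfInverse
    ((((1 / 8) ^ n.natAbs : ℝ) : 𝕜) • RR (Q (ka n)) (8 ^ mu n))
    (((8 ^ n.natAbs : ℝ) : 𝕜) • RR (Q (ka n)) ((1 / 8) ^ mu n))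
    (fun x => by
      simp only [ContinuousLinearMap.smul_apply, map_smul, smul_smul, RR_RR (hQ _),
        ← RCLike.ofReal_mul, ← mul_pow]
      simp [RR_apply])
    (fun x => by
      simp only [ContinuousLinearMap.smul_apply, map_smul, smul_smul, RR_RR (hQ _),
        ← RCLike.ofReal_mul, ← mul_pow]
      simp [RR_apply])

lemma Ph_apply (n : ℤ) (x : X) :
    Ph Q hQ n x = (((1 / 8) ^ n.natAbs : ℝ) : 𝕜) • RR (Q (ka n)) (8 ^ mu n) x := rfl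

lemma Ph_symm (n : ℤ) (x : X) :
    (Ph Q hQ n).symm x = ((8 ^ n.natAbs : ℝ) : 𝕜) • RR (Q (ka n)) ((1 / 8) ^ mu n) x := rfl

lemma e18 {a b c : ℕ} (h : a ≤ b + c) : (8 : ℝ) ^ a * (1 / 8) ^ b ≤ 8 ^ c := by
  calc (8 : ℝ) ^ a * (1 / 8) ^ b ≤ 8 ^ (b + c) * (1 / 8) ^ b := by gcongr; norm_num
    _ = 8 ^ c := by rw [pow_add, mul_right_comm, ← mul_pow]; norm_num

variable (hn : ∀ j x, ‖Q j x‖ ≤ ‖x‖)
include hn

lemma Ph_bd (n n' : ℤ) (h1 : n'.natAbs ≤ n.natAbs + 1)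
    (h2 : (ka n = ka n' ∧ mu n ≤ mu n' + 2) ∨ mu n ≤ 2) (x : X) :
    ‖Ph Q hQ n ((Ph Q hQ n').symm x)‖ ≤ 1584 * ‖x‖ := by
  rw [Ph_apply, Ph_symm, map_smul, smul_smul, ← RCLike.ofReal_mul, norm_smul, RCLike.norm_ofReal,
    abs_of_nonneg (by positivity), mul_comm ((1 / 8 : ℝ) ^ _)]
  have a1 := e18 h1
  have a2 : ‖RR (Q (ka n)) (8 ^ mu n) (RR (Q (ka n')) ((1 / 8) ^ mu n') x)‖ ≤ 198 * ‖x‖ := by
    rcases h2 with ⟨h2, h3⟩ | h2
    · rw [← h2, RR_RR (hQ _)]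
      have := RR_norm (hn (ka n)) (by positivity) (e18 h3) x
      have := norm_nonneg x
      linarith
    · have b1 := RR_norm (hn (ka n)) (c := 8 ^ mu n) (D := 8 ^ 2) (by positivity)
        (pow_le_pow_right₀ (by norm_num) h2) (RR (Q (ka n')) ((1 / 8) ^ mu n') x)
      have b2 := RR_norm (hn (ka n')) (c := (1 / 8) ^ mu n') (D := 1) (by positivity)
        (pow_le_one₀ (by norm_num) (by norm_num)) x
      linarith
  calc _ ≤ 8 ^ 1 * (198 * ‖x‖) := by gcongr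
    _ = _ := by ring

lemma Ph_B (hB : ∀ (a : X) (ε : ℝ), 0 < ε → ∃ j₀ : ℕ, ∀ J : ℕ, ∃ u, ‖u - a‖ ≤ ε ∧
      ∀ j, j₀ ≤ j → j ≤ J → Q j u = 0) (a : X) (ε : ℝ) (hε : 0 < ε) :
    ∃ K : ℝ, ∀ M : ℤ, ∃ u, ‖u - a‖ ≤ ε ∧ ∀ m ≤ M, ‖Ph Q hQ m u‖ ≤ K * (1 / 8) ^ m.natAbs := by
  obtain ⟨j₀, h⟩ := hB a ε hε
  refine ⟨(8 ^ (2 * 8 ^ j₀) + 2) * (‖a‖ + ε), fun M => ?_⟩
  obtain ⟨u, h1, h2⟩ := h (ka M)
  refine ⟨u, h1, fun m hm => ?_⟩
  have hu : ‖u‖ ≤ ‖a‖ + ε := by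
    have := norm_le_insert' u a
    linarith
  rw [Ph_apply, norm_smul, RCLike.norm_ofReal, abs_of_nonneg (by positivity), mul_comm]
  gcongr
  by_cases c : j₀ ≤ ka m
  · rw [RR_apply, h2 _ c (Nat.log_mono_right (by omega)), smul_zero, add_zero]
    refine hu.trans (le_mul_of_one_le_left (by positivity) ?_)
    have : (0 : ℝ) ≤ 8 ^ (2 * 8 ^ j₀) := by positivity
    linarith
  · have : mu m ≤ 2 * 8 ^ j₀ :=
      (mu_le m).trans (Nat.mul_le_mul_left _ (Nat.pow_le_pow_right (by norm_num) (by omega)))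
    refine (RR_norm (hn _) (by positivity) (pow_le_pow_right₀ (by norm_num) this) u).trans ?_
    gcongr

lemma Ph_A (a : X) (C : ℝ) (h : ∀ n : ℕ, ‖Ph Q hQ n a‖ ≤ C) (j : ℕ) :
    ‖Q j a‖ ≤ C * (1 / 8) ^ j := by
  obtain ⟨n, h1, h2⟩ := mu_peak j
  have e : Q j (Ph Q hQ n a) = (((1 / 8) ^ n * 8 ^ mu n : ℝ) : 𝕜) • Q j a := by
    rw [Ph_apply, h1, RR_apply, map_smul, map_add, map_smul, hQ, Int.natAbs_natCast]
    push_cast
    module
  have a1 := (hn j _).trans (h n)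
  rw [e, norm_smul, RCLike.norm_ofReal, abs_of_nonneg (by positivity)] at a1
  have a2 : (1 : ℝ) ≤ (1 / 8) ^ n * 8 ^ mu n * (1 / 8) ^ j := by
    calc (1 : ℝ) = (1 / 8) ^ n * 8 ^ (n + j) * (1 / 8) ^ j := by
          rw [mul_right_comm, ← pow_add, ← mul_pow]; norm_num
      _ ≤ _ := by gcongr; norm_num
  calc ‖Q j a‖ ≤ ((1 / 8) ^ n * 8 ^ mu n * (1 / 8) ^ j) * ‖Q j a‖ :=
        le_mul_of_one_le_left (norm_nonneg _) a2
    _ = ((1 / 8) ^ n * 8 ^ mu n * ‖Q j a‖) * (1 / 8) ^ j := by ring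
    _ ≤ _ := by gcongr

end

variable (𝕜 : Type*) [RCLike 𝕜]

abbrev XX := lp (fun _ : ℕ × ℕ => 𝕜) 1

noncomputable def cf (j : ℕ) (o : ℕ × ℕ) : ℝ :=
  if j % 2 = 0 then
    (if o.1 = 0 then (if o.2 = 0 then -(1 / 2) ^ (j / 2) else 0)
      else if o.1 ≤ j / 2 + 1 ∧ j / 2 ≤ o.2 then (1 / 2) ^ (j / 2 + 1 - o.1) else 0)
  else if o = ((j / 2).unpair.1 + 1, (j / 2).unpair.2) then 1 else 0

def pt (j : ℕ) : ℕ × ℕ :=
  if j % 2 = 0 then (j / 2 + 1, j / 2) else ((j / 2).unpair.1 + 1, (j / 2).unpair.2)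

lemma cf_pt (j : ℕ) : cf j (pt j) = 1 := by
  unfold cf pt
  by_cases h : j % 2 = 0 <;> simp [h]

lemma cf_le (j : ℕ) (o : ℕ × ℕ) : |cf j o| ≤ 1 := by
  have h : ∀ k : ℕ, |(1 / 2 : ℝ) ^ k| ≤ 1 := fun k => by
    rw [abs_of_nonneg (by positivity)]
    exact pow_le_one₀ (by norm_num) (by norm_num)
  unfold cf
  split_ifs <;> first | exact h _ | (rw [abs_neg]; exact h _) | simp

lemma cf_bd (j : ℕ) (o : ℕ × ℕ) : ‖(cf j o : 𝕜) • ContinuousLinearMap.id 𝕜 𝕜‖ ≤ 1 := by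
  rw [norm_smul, RCLike.norm_ofReal, ContinuousLinearMap.norm_id, mul_one]
  exact cf_le j o

noncomputable def psi (j : ℕ) : XX 𝕜 →L[𝕜] 𝕜 :=
  lp.tsumCLM 𝕜 (ℕ × ℕ) 𝕜 ∘L
    lp.mapCLM 1 (fun o => (cf j o : 𝕜) • ContinuousLinearMap.id 𝕜 𝕜) zero_le_one (cf_bd 𝕜 j)

variable {𝕜}

lemma psi_apply (j : ℕ) (a : XX 𝕜) : psi 𝕜 j a = ∑' o, (cf j o : 𝕜) * a o := rfl

lemma psi_norm (j : ℕ) (a : XX 𝕜) : ‖psi 𝕜 j a‖ ≤ ‖a‖ := by
  have h : ‖psi 𝕜 j‖ ≤ 1 * 1 := (ContinuousLinearMap.opNorm_comp_le _ _).trans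
    (mul_le_mul lp.norm_tsumCLM_le (lp.norm_mapCLM_le _ _ _ _) (norm_nonneg _) zero_le_one)
  simpa using (psi 𝕜 j).le_of_opNorm_le h a

lemma psi_single (j : ℕ) (o : ℕ × ℕ) (t : 𝕜) : psi 𝕜 j (lp.single 1 o t) = (cf j o : 𝕜) * t := by
  rw [psi_apply, tsum_eq_single o fun o' h => by rw [lp.single_apply_ne _ _ _ h, mul_zero],
    lp.single_apply_self]

lemma psi_odd (i J : ℕ) (a : XX 𝕜) : psi 𝕜 (2 * Nat.pair i J + 1) a = a (i + 1, J) := by
  have e1 : ¬ (2 * Nat.pair i J + 1) % 2 = 0 := by omega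
  have e2 : (2 * Nat.pair i J + 1) / 2 = Nat.pair i J := by omega
  rw [psi_apply, tsum_eq_single (i + 1, J) fun o' h => by simp [cf, e2, h]]
  simp [cf, e2]

variable (𝕜) in
noncomputable def QQ (j : ℕ) : XX 𝕜 →L[𝕜] XX 𝕜 := (psi 𝕜 j).smulRight (lp.single 1 (pt j) 1)

lemma QQ_apply (j : ℕ) (a : XX 𝕜) : QQ 𝕜 j a = psi 𝕜 j a • lp.single 1 (pt j) (1 : 𝕜) := rfl

lemma QQ_QQ (j : ℕ) (a : XX 𝕜) : QQ 𝕜 j (QQ 𝕜 j a) = QQ 𝕜 j a := by
  rw [QQ_apply, QQ_apply, map_smul, psi_single, cf_pt]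
  simp

lemma QQ_norm (j : ℕ) (a : XX 𝕜) : ‖QQ 𝕜 j a‖ = ‖psi 𝕜 j a‖ := by
  rw [QQ_apply, norm_smul, lp.norm_single zero_lt_one, norm_one, mul_one]

lemma propA (a : XX 𝕜) (C : ℝ) (h : ∀ j, ‖psi 𝕜 j a‖ ≤ C * (1 / 8) ^ j) : a (0, 0) = 0 := by
  have hC : 0 ≤ C := by simpa using (norm_nonneg _).trans (h 0)
  have e8 : ∀ k : ℕ, (1 / 8 : ℝ) ^ k = (1 / 2) ^ (3 * k) := fun k => by rw [pow_mul]; norm_num
  have hp : ∀ {a b : ℕ}, a ≤ b → (1 / 2 : ℝ) ^ b ≤ (1 / 2) ^ a := fun h =>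
    pow_le_pow_of_le_one (by norm_num) (by norm_num) h
  have s0 : Summable fun k : ℕ => ‖(1 / 2 : ℝ) ^ k‖ := summable_geometric_two.norm
  have sg : Summable fun o : ℕ × ℕ => (1 / 2 : ℝ) ^ o.1 * (1 / 2) ^ o.2 :=
    summable_mul_of_summable_norm s0 s0
  set D := ∑' o : ℕ × ℕ, (1 / 2 : ℝ) ^ o.1 * (1 / 2) ^ o.2
  have sa : Summable fun o => ‖a o‖ := by simpa using a.2.summable
  have key : ∀ k : ℕ, ‖a (0, 0)‖ ≤ (C + C * D) * (1 / 2) ^ k := by
    intro k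
    have e1 : (2 * k) % 2 = 0 := by omega
    have e2 : (2 * k) / 2 = k := by omega
    have s1 : Summable fun o => (cf (2 * k) o : 𝕜) * a o := by
      refine Summable.of_norm_bounded sa fun o => ?_
      rw [norm_mul, RCLike.norm_ofReal]
      exact mul_le_of_le_one_left (norm_nonneg _) (cf_le _ _)
    have a1 := h (2 * k)
    rw [psi_apply, s1.tsum_eq_add_tsum_ite (0, 0)] at a1
    have a2 : ‖∑' o, if o = (0, 0) then 0 else (cf (2 * k) o : 𝕜) * a o‖ ≤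
        C * (1 / 2) ^ (2 * k) * D := by
      rw [← tsum_mul_left]
      refine tsum_of_norm_bounded (sg.mul_left _).hasSum fun ⟨i, J⟩ => ?_
      have z : 0 ≤ C * (1 / 2) ^ (2 * k) * ((1 / 2 : ℝ) ^ i * (1 / 2) ^ J) := by positivity
      split_ifs with c
      · simpa using z
      · rw [norm_mul, RCLike.norm_ofReal]
        simp only [cf, e1, e2, if_true]
        split_ifs with c1 c2 c3
        · exact absurd (Prod.ext c1 c2) c
        · simpa using z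
        · obtain ⟨i, rfl⟩ : ∃ i', i = i' + 1 := ⟨i - 1, by omega⟩
          have b := h (2 * Nat.pair i J + 1)
          rw [psi_odd, e8] at b
          have := Nat.left_le_pair i J
          have := Nat.right_le_pair i J
          rw [abs_of_nonneg (by positivity)]
          calc _ ≤ (1 / 2 : ℝ) ^ (k + 1 - (i + 1)) *
                (C * (1 / 2) ^ (3 * (2 * Nat.pair i J + 1))) := by gcongr
            _ = C * (1 / 2) ^ (k + 1 - (i + 1) + 3 * (2 * Nat.pair i J + 1)) := by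
                rw [pow_add]; ring
            _ ≤ C * (1 / 2) ^ (2 * k + (i + 1 + J)) := by
                refine mul_le_mul_of_nonneg_left (hp ?_) hC
                omega
            _ = _ := by rw [pow_add, pow_add _ (i + 1)]; ring
        · simpa using z
    have a3 : ‖(cf (2 * k) (0, 0) : 𝕜) * a (0, 0)‖ = (1 / 2) ^ k * ‖a (0, 0)‖ := by
      rw [norm_mul, RCLike.norm_ofReal]
      simp only [cf, e1, e2, if_true]
      rw [abs_neg, abs_of_nonneg (by positivity)]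
    have a4 := norm_le_add_norm_add ((cf (2 * k) (0, 0) : 𝕜) * a (0, 0))
      (∑' o, if o = (0, 0) then 0 else (cf (2 * k) o : 𝕜) * a o)
    have a5 : C * (1 / 8) ^ (2 * k) ≤ C * (1 / 2) ^ (2 * k) := by gcongr; norm_num
    refine le_of_mul_le_mul_left (a := (1 / 2) ^ k) ?_ (by positivity)
    calc _ ≤ C * (1 / 2) ^ (2 * k) + C * (1 / 2) ^ (2 * k) * D := by linarith
      _ = _ := by rw [two_mul, pow_add]; ring
  have ht : Tendsto (fun k : ℕ => (C + C * D) * (1 / 2 : ℝ) ^ k) atTop (𝓝 ((C + C * D) * 0)) :=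
    (tendsto_pow_atTop_nhds_zero_of_lt_one (by norm_num) (by norm_num)).const_mul _
  rw [mul_zero] at ht
  exact norm_le_zero_iff.1 (ge_of_tendsto' ht key)

def Ok (a : XX 𝕜) : Prop := ∀ ε : ℝ, 0 < ε → ∃ j₀ : ℕ, ∀ J : ℕ, ∃ u, ‖u - a‖ ≤ ε ∧
  ∀ j, j₀ ≤ j → j ≤ J → psi 𝕜 j u = 0

lemma ok_single (o : ℕ × ℕ) (t : 𝕜) : Ok (lp.single 1 o t : XX 𝕜) := by
  intro ε hε
  obtain ⟨i, J⟩ := o
  by_cases c : i = 0 ∧ J = 0
  · obtain ⟨rfl, rfl⟩ := c
    have ht : Tendsto (fun k : ℕ => (1 / 2 : ℝ) ^ k * ‖t‖) atTop (𝓝 (0 * ‖t‖)) :=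
      (tendsto_pow_atTop_nhds_zero_of_lt_one (by norm_num) (by norm_num)).mul_const _
    rw [zero_mul] at ht
    obtain ⟨i, hi⟩ := (ht.eventually (gt_mem_nhds hε)).exists
    refine ⟨2 * i, fun J => ⟨lp.single 1 (0, 0) t +
      lp.single 1 (i + 1, J) ((((1 / 2) ^ i : ℝ) : 𝕜) * t), ?_, fun j h1 h2 => ?_⟩⟩
    · rw [add_sub_cancel_left, lp.norm_single zero_lt_one, norm_mul, RCLike.norm_ofReal,
        abs_of_nonneg (by positivity)]
      exact hi.le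
    · rw [map_add, psi_single, psi_single, ← mul_assoc, ← add_mul, ← RCLike.ofReal_mul,
        ← RCLike.ofReal_add]
      have : cf j (0, 0) + cf j (i + 1, J) * (1 / 2) ^ i = 0 := by
        by_cases hj : j % 2 = 0
        · have b : i + 1 ≤ j / 2 + 1 ∧ j / 2 ≤ J := by omega
          simp only [cf, hj, if_true, Nat.add_one_ne_zero, if_false, b, and_self]
          rw [← pow_add, show j / 2 + 1 - (i + 1) + i = j / 2 by omega]
          ring
        · have b : ¬ (i + 1, J) = ((j / 2).unpair.1 + 1, (j / 2).unpair.2) := by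
            intro b
            have := Nat.unpair_right_le (j / 2)
            have := (Prod.ext_iff.1 b).2
            simp only at this
            omega
          simp only [cf, hj, if_false, b]
          simp
      rw [this]; simp
  · refine ⟨2 * Nat.pair (i - 1) J + 2, fun _ =>
      ⟨lp.single 1 (i, J) t, by simpa using hε.le, fun j h1 _ => ?_⟩⟩
    have := Nat.right_le_pair (i - 1) J
    have : cf j (i, J) = 0 := by
      unfold cf
      split_ifs with c1 c2 c3 c4 c5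
      · exact absurd ⟨c2, c3⟩ c
      · rfl
      · simp only at c4; omega
      · rfl
      · have b := Prod.ext_iff.1 c5
        simp only at b
        have := Nat.pair_unpair (j / 2)
        rw [← b.2, show (j / 2).unpair.1 = i - 1 by omega] at this
        omega
      · rfl
    rw [psi_single, this]; simp

lemma propB (a : XX 𝕜) : Ok a := by
  have h2 : ∀ s : Finset (ℕ × ℕ), Ok (∑ i ∈ s, lp.single 1 i (a i) : XX 𝕜) := fun s => by
    induction s using Finset.induction_on with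
    | empty => exact fun ε hε => ⟨0, fun _ => ⟨0, by simpa using hε.le, fun _ _ _ => map_zero _⟩⟩
    | insert o s ha ih =>
      rw [Finset.sum_insert ha]
      intro ε hε
      obtain ⟨j₁, h1⟩ := ok_single o (a o) (ε / 2) (by positivity)
      obtain ⟨j₂, h2⟩ := ih (ε / 2) (by positivity)
      refine ⟨j₁ + j₂, fun J => ?_⟩
      obtain ⟨u, u1, u2⟩ := h1 J
      obtain ⟨v, v1, v2⟩ := h2 J
      refine ⟨u + v, ?_, fun j c1 c2 => ?_⟩
      · rw [add_sub_add_comm]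
        exact (norm_add_le _ _).trans (by linarith)
      · rw [map_add, u2 j (by omega) c2, v2 j (by omega) c2, add_zero]
  intro ε hε
  obtain ⟨s, hs⟩ := (Metric.tendsto_nhds.1 (lp.hasSum_single ENNReal.one_ne_top a) _
    (half_pos hε)).exists
  obtain ⟨j₀, h⟩ := h2 s _ (half_pos hε)
  refine ⟨j₀, fun J => ?_⟩
  obtain ⟨u, u1, u2⟩ := h J
  refine ⟨u, ?_, u2⟩
  rw [dist_eq_norm] at hs
  have := norm_sub_le_norm_sub_add_norm_sub u (∑ i ∈ s, lp.single 1 i (a i)) a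
  linarith

end Pool.Agent.H.MP_7d5718_an
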